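import Mathlib

/-! Boolean nondeterministic branching programs. -/

namespace Pool.Agent.MP_47ff19_lc.H51

/-- A Boolean nondeterministic branching program over the variables `V`: a directed graph on `size`
nodes with a source and a sink, each edge being labelled by a literal `(v, b)`, which tests that
variable `v` has value `b`, or unlabelled. -/
structure NBP (V : Type) where
  size : ℕ
  source : Fin size
  sink : Fin size
  edge : Fin size → Option (V × Bool) → Fin size → Prop

/-- `B.Path I s l t`: there is a walk from `s` to `t` all of whose literals are true for the input
`I`, and `l` lists, in order, the variables that its labelled edges test. -/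
inductive NBP.Path {V : Type} (B : NBP V) (I : V → Bool) :
    Fin B.size → List V → Fin B.size → Prop
  | nil (s : Fin B.size) : NBP.Path B I s [] s
  | free {s s' t : Fin B.size} {l : List V} :
      B.edge s none s' → NBP.Path B I s' l t → NBP.Path B I s l t
  | test {s s' t : Fin B.size} {l : List V} (v : V) :
      B.edge s (some (v, I v)) s' → NBP.Path B I s' l t → NBP.Path B I s (v :: l) t

/-- The program accepts exactly the inputs in `f`. -/
def NBP.Computes {V : Type} (B : NBP V) (f : (V → Bool) → Prop) : Prop :=
  ∀ I, f I ↔ ∃ l, B.Path I B.source l B.sink

/-- Every accepted input has an accepting walk that tests no variable twice. -/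
def NBP.ReadOnceAccept {V : Type} (B : NBP V) : Prop :=
  ∀ I l, B.Path I B.source l B.sink → ∃ l', B.Path I B.source l' B.sink ∧ l'.Nodup

end Pool.Agent.MP_47ff19_lc.H51
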